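import Mathlib

/-! Generic centres: a Baire category argument for colourings avoiding distance one. -/

namespace Pool.Agent.Lib.MP_eb34a4_co.SC

open Set Metric Filter Topology

variable {E : Type} [NormedAddCommGroup E]

/-- The families of centres whose unit spheres, shifted by `η`, meet a compact set in a common
point form a closed set. -/
theorem bad_closed {ι : Type} [Finite ι] (P : Set ι) (η : E) {K : Set E} (hK : IsCompact K) :
    IsClosed {b : ι → E | ∃ y ∈ K, ∀ a ∈ P, ‖y - (b a + η)‖ = 1} := by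
  rw [← isOpen_compl_iff, isOpen_iff_mem_nhds]
  intro b hb
  have key : ∀ᶠ b' in 𝓝 b, ∀ y ∈ K, ¬∀ a ∈ P, ‖y - (b' a + η)‖ = 1 := by
    refine hK.eventually_forall_of_forall_eventually fun y hy => ?_
    have h : ¬∀ a ∈ P, ‖y - (b a + η)‖ = 1 := fun h => hb ⟨y, hy, h⟩
    obtain ⟨a, ha⟩ := not_forall.1 h
    obtain ⟨haP, ha⟩ := Classical.not_imp.1 ha
    have hc : Continuous fun z : (ι → E) × E => ‖z.2 - (z.1 a + η)‖ := by fun_prop
    filter_upwards [hc.continuousAt.eventually_ne (x := (b, y)) ha] with z hz h using hz (h a haP)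
  filter_upwards [key] with b' hb' ⟨y, hy, h⟩ using hb' y hy h

/-- Centres taken in the interior of the closures of their colour classes can be moved a little
so that no point `p` is a limit of open sets using only the colours of the centres at distance
one from `p`. -/
theorem generic [NormedSpace ℝ E] [FiniteDimensional ℝ E] {k : ℕ} (c : E → Fin k)
    (hc : ∀ x y, ‖x - y‖ = 1 → c x ≠ c y) {ι : Type} [Fintype ι] (col : ι → Fin k)
    (b₀ : ι → E) {ε : ℝ} (ε0 : 0 < ε)
    (h : ∀ a, closedBall (b₀ a) (2 * ε) ⊆ closure (c ⁻¹' {col a})) :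
    ∃ b ∈ ball b₀ ε, ∀ p : E,
      p ∉ closure (interior (c ⁻¹' (col '' {a | ‖p - b a‖ = 1}))) := by
  have : ProperSpace E := FiniteDimensional.proper_real E
  obtain ⟨H, cH, dH⟩ := TopologicalSpace.exists_countable_dense E
  have := cH.to_subtype
  have hF : ∀ P : Set ι, ∃ F : ℕ → Set E, (∀ n, IsClosed (F n)) ∧
      (∀ n, F n ⊆ interior (c ⁻¹' (col '' P))) ∧ ⋃ n, F n = interior (c ⁻¹' (col '' P)) :=
    fun P => by
      obtain ⟨F, h1, h2, h3, -⟩ := (isOpen_interior (s := c ⁻¹' (col '' P))).exists_iUnion_isClosed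
      exact ⟨F, h1, h2, h3⟩
  choose F cF sF uF using hF
  obtain ⟨C, hC⟩ : ∃ C : Set ι × H × ℕ × ℕ → Set (ι → E), C = fun z =>
      (closedBall b₀ ε ∩ {_b | ‖(z.2.1 : E)‖ ≤ ε}) ∩
        {b | ∃ y ∈ closedBall (0 : E) z.2.2.1 ∩ F z.1 z.2.2.2, ∀ a ∈ z.1,
          ‖y - (b a + z.2.1)‖ = 1} := ⟨_, rfl⟩
  have cC : ∀ z, IsClosed (C z) := fun z => by
    rw [hC]
    exact (isClosed_closedBall.inter isClosed_const).inter
      (bad_closed _ _ ((isCompact_closedBall _ _).inter_right (cF _ _)))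
  have dC : ∀ z, Dense (C z)ᶜ := fun z => by
    refine interior_eq_empty_iff_dense_compl.1 (eq_empty_of_forall_notMem fun b hb => ?_)
    obtain ⟨r, r0, hr⟩ := Metric.mem_nhds_iff.1 (mem_interior_iff_mem_nhds.1 hb)
    have hb' := interior_subset hb
    rw [hC] at hb'
    have hx : ∀ a, ∃ x ∈ c ⁻¹' {col a}, dist (b a + z.2.1) x < r := fun a => by
      refine Metric.mem_closure_iff.1 (h a ?_) r r0
      have e1 : dist (b a) (b₀ a) ≤ ε := (dist_le_pi_dist b b₀ a).trans hb'.1.1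
      have e2 : ‖(z.2.1 : E)‖ ≤ ε := hb'.1.2
      have e3 := dist_triangle (b a + z.2.1) (b a) (b₀ a)
      rw [dist_self_add_left] at e3
      rw [mem_closedBall]
      linarith
    choose x hx hxd using hx
    have hm : (fun a => x a - z.2.1) ∈ C z := by
      refine hr ((dist_pi_lt_iff r0).2 fun a => ?_)
      have := hxd a
      rw [dist_comm, dist_eq_norm] at this
      rw [dist_eq_norm]
      rwa [sub_sub, add_comm]
    rw [hC] at hm
    obtain ⟨y, hy, hy'⟩ := hm.2
    obtain ⟨a, ha, e⟩ := interior_subset (sF _ _ hy.2)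
    have e1 := hy' a ha
    rw [sub_add_cancel] at e1
    exact hc y (x a) e1 (e.symm.trans (Eq.symm (hx a)))
  obtain ⟨b, hb, hb'⟩ := (dense_iInter_of_isOpen (fun z => (cC z).isOpen_compl) dC).exists_mem_open
    (isOpen_ball (x := b₀) (ε := ε)) ⟨b₀, mem_ball_self ε0⟩
  refine ⟨b, hb', fun p hp => ?_⟩
  obtain ⟨y, hy, hy'⟩ := mem_closure_iff.1 hp (ball p ε) isOpen_ball (mem_ball_self ε0)
  obtain ⟨η, hη, e1, e2⟩ := dH.exists_mem_open
    ((isOpen_ball.inter isOpen_interior).preimage (continuous_const_add p))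
    ⟨y - p, by simpa using ⟨hy, hy'⟩⟩
  rw [← uF] at e2
  obtain ⟨n, hn⟩ := mem_iUnion.1 e2
  obtain ⟨m, hm⟩ := exists_nat_ge ‖p + η‖
  refine mem_iInter.1 hb ({a | ‖p - b a‖ = 1}, ⟨η, hη⟩, m, n) ?_
  rw [hC]
  refine ⟨⟨ball_subset_closedBall hb', ?_⟩, p + η, ⟨mem_closedBall_zero_iff.2 hm, hn⟩,
    fun a ha => ?_⟩
  · rw [mem_ball, dist_self_add_left] at e1
    exact e1.le
  · rw [add_sub_add_right_eq_sub]
    exact ha

end Pool.Agent.Lib.MP_eb34a4_co.SC
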