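import Pool.Agent.Lib.MP_b71113_an.KL.Mir

/-! A form of the Lebesgue covering theorem: a finite closed cover of a normed space of
dimension `d`, each member of which is cut by small walls, has a point in `d + 1` members. -/

namespace Pool.Agent.Lib.MP_eb34a4_co.SC

open Set Metric Filter Topology

variable {E : Type} [NormedAddCommGroup E] {k : ℕ} {F : Fin k → Set E}

/-- One wall: a small open neighbourhood of `K` on whose boundary the order drops by one. -/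
theorem wall_one (hF : ∀ i, IsClosed (F i))
    (hw : ∀ i, ∀ a ∈ F i, ∃ U, IsOpen U ∧ a ∈ U ∧ U ⊆ ball a 2 ∧
      ∀ x ∈ closure U, x ∈ F i → x ∈ U)
    {m : ℕ} {X : Set E} (hX : IsClosed X)
    (ho : ∀ x ∈ X, ∀ T : Finset (Fin k), (∀ i ∈ T, x ∈ F i) → T.card ≤ m + 1)
    {K : Set E} (hK : IsCompact K) :
    ∃ U, IsOpen U ∧ K ⊆ U ∧ (∀ x ∈ U, ∃ a ∈ K, dist x a < 2) ∧
      ∀ x ∈ X, x ∈ closure U → x ∉ U → ∀ T : Finset (Fin k), (∀ i ∈ T, x ∈ F i) →
        T.card ≤ m := by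
  classical
  obtain ⟨M, hM⟩ : ∃ M : Finset (Fin k) → Set E,
      M = fun R => {x | R.card = m + 1 ∧ x ∈ X ∧ ∀ i ∈ R, x ∈ F i} := ⟨_, rfl⟩
  have mM : ∀ R x, x ∈ M R ↔ R.card = m + 1 ∧ x ∈ X ∧ ∀ i ∈ R, x ∈ F i := fun R x => by
    rw [hM]; rfl
  have cM : ∀ R, IsClosed (M R) := fun R => by
    have : M R = {_x | R.card = m + 1} ∩ (X ∩ ⋂ i ∈ R, F i) := by
      ext x
      simp [mM]
    rw [this]
    exact isClosed_const.inter (hX.inter (isClosed_biInter fun i _ => hF i))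
  have dM : ∀ R R' x, x ∈ M R → x ∈ M R' → R = R' := fun R R' x h h' => by
    obtain ⟨c, hx, f⟩ := (mM _ _).1 h
    obtain ⟨c', -, f'⟩ := (mM _ _).1 h'
    have e := ho x hx (R ∪ R') fun i hi => (Finset.mem_union.1 hi).elim (f i) (f' i)
    have e1 : R = R ∪ R' := Finset.eq_of_subset_of_card_le Finset.subset_union_left (c ▸ e)
    have e2 : R' = R ∪ R' := Finset.eq_of_subset_of_card_le Finset.subset_union_right (c' ▸ e)
    exact e1.trans e2.symm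
  have hV : ∀ a : E, ∃ V, IsOpen V ∧ a ∈ V ∧ V ⊆ ball a 2 ∧
      ∀ x ∈ closure V, ∀ R, x ∈ M R → x ∈ V := fun a => by
    by_cases h : ∃ R, a ∈ M R
    · obtain ⟨R, hR⟩ := h
      obtain ⟨c, -, f⟩ := (mM _ _).1 hR
      obtain ⟨i, hi⟩ : R.Nonempty := Finset.card_pos.1 (by omega)
      obtain ⟨U, oU, aU, bU, wU⟩ := hw i a (f i hi)
      have oN : IsOpen (⋃ R' ∈ {R' | R' ≠ R}, M R')ᶜ :=
        ((toFinite _).isClosed_biUnion fun R' _ => cM R').isOpen_compl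
      obtain ⟨W, oW, sW, cW⟩ := normal_exists_closure_subset (cM R) oN fun x hx hx' => by
        obtain ⟨R', h1, h2⟩ := mem_iUnion₂.1 hx'
        exact h1 (dM _ _ _ h2 hx)
      refine ⟨U ∩ W, oU.inter oW, ⟨aU, sW hR⟩, inter_subset_left.trans bU, fun x hx R' hx' => ?_⟩
      have e : R' = R := by
        by_contra e
        exact cW (closure_mono inter_subset_right hx) (mem_iUnion₂.2 ⟨R', e, hx'⟩)
      rw [e] at hx'
      exact ⟨wU x (closure_mono inter_subset_left hx) (((mM _ _).1 hx').2.2 i hi), sW hx'⟩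
    · have oN : IsOpen ((⋃ R, M R)ᶜ ∩ ball a 2) :=
        (isClosed_iUnion_of_finite cM).isOpen_compl.inter isOpen_ball
      obtain ⟨W, oW, sW, cW⟩ := normal_exists_closure_subset (isClosed_singleton (x := a)) oN
        (singleton_subset_iff.2 ⟨fun hx => h (mem_iUnion.1 hx), mem_ball_self two_pos⟩)
      exact ⟨W, oW, sW rfl, fun x hx => (cW (subset_closure hx)).2,
        fun x hx R hx' => absurd (mem_iUnion.2 ⟨R, hx'⟩) (cW hx).1⟩
  choose V oV aV bV wV using hV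
  obtain ⟨S, hS, cS⟩ := hK.elim_nhds_subcover V fun a _ => (oV a).mem_nhds (aV a)
  refine ⟨⋃ a ∈ S, V a, isOpen_biUnion fun a _ => oV a, cS, fun x hx => ?_,
    fun x hx hc hn T hT => ?_⟩
  · obtain ⟨a, ha, hx⟩ := mem_iUnion₂.1 hx
    exact ⟨a, hS a ha, bV a hx⟩
  · by_contra hm
    rw [S.closure_biUnion] at hc
    obtain ⟨a, ha, hc⟩ := mem_iUnion₂.1 hc
    have e := ho x hx T hT
    exact hn (mem_iUnion₂.2 ⟨a, ha, wV a x hc T ((mM _ _).2 ⟨by omega, hx, hT⟩)⟩)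

/-- If the order on `X` is at most `n`, then `n` walls have no common point in `X`. -/
theorem wall_many (hF : ∀ i, IsClosed (F i))
    (hw : ∀ i, ∀ a ∈ F i, ∃ U, IsOpen U ∧ a ∈ U ∧ U ⊆ ball a 2 ∧
      ∀ x ∈ closure U, x ∈ F i → x ∈ U) :
    ∀ (n : ℕ) (X : Set E), IsClosed X → (∀ x ∈ X, ∃ i, x ∈ F i) →
      (∀ x ∈ X, ∀ T : Finset (Fin k), (∀ i ∈ T, x ∈ F i) → T.card ≤ n) →
      ∀ K : Fin n → Set E, (∀ j, IsCompact (K j)) →
      ∃ U : Fin n → Set E,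
        (∀ j, IsOpen (U j) ∧ K j ⊆ U j ∧ ∀ x ∈ U j, ∃ a ∈ K j, dist x a < 2) ∧
        ∀ x ∈ X, ¬∀ j, x ∈ closure (U j) ∧ x ∉ U j
  | 0, X, _, hc, ho, _, _ => ⟨Fin.elim0, fun j => j.elim0, fun x hx _ => by
      obtain ⟨i, hi⟩ := hc x hx
      simpa using ho x hx {i} (by simpa using hi)⟩
  | n + 1, X, hX, hc, ho, K, hK => by
    obtain ⟨U, oU, sU, bU, wU⟩ := wall_one hF hw hX ho (hK 0)
    obtain ⟨V, h1, h2⟩ := wall_many hF hw n (X ∩ (closure U ∩ Uᶜ))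
      (hX.inter (isClosed_closure.inter oU.isClosed_compl)) (fun x hx => hc x hx.1)
      (fun x hx => wU x hx.1 hx.2.1 hx.2.2) (fun j => K j.succ) fun j => hK _
    refine ⟨Fin.cons U V, fun j => ?_, fun x hx h => h2 x ⟨hx, h 0⟩ fun j => h j.succ⟩
    refine Fin.cases ?_ (fun j => ?_) j
    · exact ⟨oU, sU, bU⟩
    · exact h1 j

/-- The covering theorem, on a large cube `Q`. -/
theorem order_ge (E : Type) [NormedAddCommGroup E] [NormedSpace ℝ E] [FiniteDimensional ℝ E] :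
    ∃ Q : Set E, IsCompact Q ∧ ∀ (k : ℕ) (F : Fin k → Set E), (∀ i, IsClosed (F i)) →
      (∀ x ∈ Q, ∃ i, x ∈ F i) →
      (∀ i, ∀ a ∈ F i, ∃ U, IsOpen U ∧ a ∈ U ∧ U ⊆ ball a 2 ∧ ∀ x ∈ closure U, x ∈ F i → x ∈ U) →
      ∃ (x : E) (T : Finset (Fin k)), Module.finrank ℝ E < T.card ∧ ∀ i ∈ T, x ∈ F i := by
  obtain ⟨d, hd⟩ : ∃ d, d = Module.finrank ℝ E := ⟨_, rfl⟩
  obtain ⟨e⟩ : Nonempty ((Fin d → ℝ) ≃L[ℝ] E) :=
    FiniteDimensional.nonempty_continuousLinearEquiv_of_finrank_eq (by simpa using hd)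
  obtain ⟨C, hC⟩ : ∃ C : ℝ, C = ‖(e.symm : E →L[ℝ] (Fin d → ℝ))‖ := ⟨_, rfl⟩
  have C0 : 0 ≤ C := hC ▸ norm_nonneg _
  obtain ⟨g, hg⟩ : ∃ g : (Fin d → ℝ) → E, g = fun a => (2 * C + 1) • e a := ⟨_, rfl⟩
  have cg : Continuous g := by rw [hg]; fun_prop
  have far : ∀ (a b : Fin d → ℝ) (j : Fin d), a j = 1 → b j = 0 → 2 ≤ dist (g a) (g b) :=
    fun a b j ha hb => by
      by_contra h
      have e1 : g a - g b = e ((2 * C + 1) • (a - b)) := by simp [hg, smul_sub]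
      have e2 := (e.symm : E →L[ℝ] (Fin d → ℝ)).le_opNorm (g a - g b)
      rw [← hC, ← dist_eq_norm, e1] at e2
      have e3 := norm_le_pi_norm ((2 * C + 1) • (a - b)) j
      simp only [Pi.smul_apply, Pi.sub_apply, ha, hb, sub_zero, smul_eq_mul, mul_one] at e3
      have e4 := le_abs_self (2 * C + 1)
      simp only [ContinuousLinearEquiv.coe_coe, ContinuousLinearEquiv.symm_apply_apply] at e2
      rw [Real.norm_eq_abs] at e3
      nlinarith [not_le.1 h]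
  have cQ : IsCompact (g '' Icc 0 1) := isCompact_Icc.image cg
  refine ⟨g '' Icc 0 1, cQ, fun k F hF hc hw => ?_⟩
  by_contra hn
  have ho : ∀ x ∈ g '' Icc 0 1, ∀ T : Finset (Fin k), (∀ i ∈ T, x ∈ F i) → T.card ≤ d :=
    fun x _ T hT => hd ▸ not_lt.1 fun h => hn ⟨x, T, h, hT⟩
  obtain ⟨U, h1, h2⟩ := wall_many hF hw d _ cQ.isClosed hc ho
    (fun j => g '' (Icc 0 1 ∩ {a | a j = 0})) fun j =>
      (isCompact_Icc.inter_right (isClosed_eq (continuous_apply j) continuous_const)).image cg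
  obtain ⟨a, ha', ha⟩ := Pool.Agent.NapKL.cube_cover
    (A := fun j => g ⁻¹' closure (U j)) (B := fun j => g ⁻¹' (U j)ᶜ)
    (fun j => isClosed_closure.preimage cg) (fun j => (h1 j).1.isClosed_compl.preimage cg)
    (fun j a _ => (em (g a ∈ U j)).imp (fun h => subset_closure h) id)
    (fun j a ha h => subset_closure ((h1 j).2.1 ⟨a, ⟨ha, h⟩, rfl⟩))
    (fun j a _ h hu => by
      obtain ⟨_, ⟨b, hb, rfl⟩, hd⟩ := (h1 j).2.2 _ hu
      exact absurd (far a b j h hb.2) (not_le.2 hd))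
  exact h2 (g a) ⟨a, ha', rfl⟩ ha

end Pool.Agent.Lib.MP_eb34a4_co.SC
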