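import Pool.Agent.Lib.MP_eb34a4_co.SC.Gen
import Pool.Agent.Lib.MP_eb34a4_co.SC.Wall

/-! In a normed space of dimension `d`, every finite colouring avoiding distance one has a point
in the closure of `d + 1` colour classes. -/

namespace Pool.Agent.Lib.MP_eb34a4_co.SC

open Set Metric Filter Topology

variable {E : Type} [NormedAddCommGroup E]

/-- A point outside the closure of the interior of the part coloured from `J` is a limit of the
interior of the closure of a colour class outside `J`. -/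
theorem clean_colour [CompleteSpace E] {k : ℕ} (c : E → Fin k) (J : Set (Fin k)) {x : E}
    (hx : x ∉ closure (interior (c ⁻¹' J))) :
    ∃ i, i ∉ J ∧ x ∈ closure (interior (closure (c ⁻¹' {i}))) := by
  by_contra hn
  have dG : Dense (⋂ i, (frontier (closure (c ⁻¹' {i})))ᶜ) :=
    dense_iInter_of_isOpen (fun i => isClosed_frontier.isOpen_compl) fun i =>
      interior_eq_empty_iff_dense_compl.1 (interior_frontier isClosed_closure)
  obtain ⟨y, hy, h1, h2⟩ := dG.exists_mem_open (isClosed_closure.isOpen_compl.inter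
    ((toFinite Jᶜ).isOpen_biInter fun i _ => isClosed_closure.isOpen_compl))
    ⟨x, hx, mem_iInter₂.2 fun i hi h => hn ⟨i, hi, h⟩⟩
  have hY : (⋂ i ∈ Jᶜ, (closure (c ⁻¹' {i}))ᶜ) ∈ 𝓝 y :=
    (biInter_mem (toFinite _)).2 fun i hi => isClosed_closure.isOpen_compl.mem_nhds fun h => by
      refine mem_iInter.1 hy i ⟨subset_closure h, fun h' => ?_⟩
      exact mem_iInter₂.1 h2 i hi (subset_closure h')
  refine h1 (subset_closure (mem_interior_iff_mem_nhds.2 (mem_of_superset hY fun z hz => ?_)))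
  by_contra e
  exact mem_iInter₂.1 hz (c z) e (subset_closure rfl)

/-- A point in the closure of more than `dim E` colour classes. -/
theorem limit_point [NormedSpace ℝ E] [FiniteDimensional ℝ E] {k : ℕ} (c : E → Fin k)
    (hc : ∀ x y, ‖x - y‖ = 1 → c x ≠ c y) :
    ∃ (p : E) (T : Finset (Fin k)), Module.finrank ℝ E < T.card ∧
      ∀ i ∈ T, p ∈ closure (c ⁻¹' {i}) := by
  have : CompleteSpace E := FiniteDimensional.complete ℝ E
  obtain ⟨Q, cQ, hQ⟩ := order_ge E
  obtain ⟨D, hD⟩ : ∃ D : Fin k → Set E, D = fun i => interior (closure (c ⁻¹' {i})) := ⟨_, rfl⟩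
  have nD : ∀ i, ∀ x ∈ D i, closure (c ⁻¹' {i}) ∈ 𝓝 x := fun i x hx => by
    rw [hD] at hx
    exact mem_interior_iff_mem_nhds.1 hx
  have hS : ∀ i, ∃ S : Finset (D i), Q ∩ closure (D i) ⊆ ⋃ z ∈ S, ball (z : E) (1 / 2) :=
    fun i => (cQ.inter_right isClosed_closure).elim_finite_subcover
      (fun z : D i => ball (z : E) (1 / 2)) (fun _ => isOpen_ball) fun x hx => by
        obtain ⟨z, hz, h⟩ := Metric.mem_closure_iff.1 hx.2 (1 / 2) one_half_pos
        exact mem_iUnion.2 ⟨⟨z, hz⟩, h⟩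
  choose S hS using hS
  have ev : ∀ᶠ r in 𝓝 (0 : ℝ), r < 1 ∧ ∀ a : Σ i, S i,
      closedBall (a.2.1 : E) r ⊆ closure (c ⁻¹' {a.1}) :=
    (eventually_lt_nhds one_pos).and
      (eventually_all.2 fun a => eventually_closedBall_subset (nD _ _ a.2.1.2))
  obtain ⟨r, ⟨r1, hr⟩, r0⟩ := ((ev.filter_mono nhdsWithin_le_nhds).and
    (self_mem_nhdsWithin (a := (0 : ℝ)) (s := Ioi 0))).exists
  have r0' : 0 < r := r0
  obtain ⟨b, hb, hg⟩ := generic c hc (ι := Σ i, S i) Sigma.fst (fun a => (a.2.1 : E))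
    (ε := r / 2) (by positivity) fun a => by
      rw [mul_div_cancel₀ r two_ne_zero]
      exact hr a
  have key : ∀ᶠ δ in 𝓝 (0 : ℝ), ∀ x ∈ Q, ∃ i, x ∈ closure (D i) ∧
      ∀ a : Σ i, S i, a.1 = i → δ ≤ |‖x - b a‖ - 1| := by
    refine cQ.eventually_forall_of_forall_eventually fun p _ => ?_
    have e1 : ∀ᶠ z : ℝ × E in 𝓝 (0, p),
        z.2 ∉ closure (interior (c ⁻¹' (Sigma.fst '' {a | ‖p - b a‖ = 1}))) :=
      (continuous_snd.continuousAt (x := ((0 : ℝ), p))).eventually_mem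
        (isClosed_closure.isOpen_compl.mem_nhds (hg p))
    have e2 : ∀ᶠ z : ℝ × E in 𝓝 (0, p), ∀ a, ‖p - b a‖ ≠ 1 → z.1 < |‖z.2 - b a‖ - 1| := by
      refine eventually_all.2 fun a => ?_
      by_cases h : ‖p - b a‖ = 1
      · exact Eventually.of_forall fun _ h' => absurd h h'
      · have hc : Continuous fun z : ℝ × E => |‖z.2 - b a‖ - 1| := by fun_prop
        exact (continuous_fst.continuousAt.eventually_lt hc.continuousAt
          (abs_pos.2 (sub_ne_zero.2 h))).mono fun _ h' _ => h'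
    filter_upwards [e1, e2] with z h1 h2
    obtain ⟨i, hi, hz⟩ := clean_colour c _ h1
    exact ⟨i, hD ▸ hz, fun a ha => (h2 a fun h => hi ⟨a, h, ha⟩).le⟩
  obtain ⟨δ, hδ, δ0⟩ := ((key.filter_mono nhdsWithin_le_nhds).and
    (self_mem_nhdsWithin (a := (0 : ℝ)) (s := Ioi 0))).exists
  have δ0' : 0 < δ := δ0
  obtain ⟨p, T, h1, h2⟩ := hQ k
    (fun i => (Q ∩ closure (D i)) ∩ ⋂ a ∈ {a : Σ i, S i | a.1 = i}, {x | δ ≤ |‖x - b a‖ - 1|})
    (fun i => (cQ.isClosed.inter isClosed_closure).inter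
      (isClosed_biInter fun a _ => isClosed_le continuous_const (by fun_prop)))
    (fun x hx => by
      obtain ⟨i, hi, h⟩ := hδ x hx
      exact ⟨i, ⟨hx, hi⟩, mem_iInter₂.2 h⟩)
    fun i x hx => by
      obtain ⟨z, hz, hxz⟩ := mem_iUnion₂.1 (hS i hx.1)
      have e1 : dist (b ⟨i, z, hz⟩) z < r / 2 := (dist_le_pi_dist b _ ⟨i, z, hz⟩).trans_lt hb
      have e2 : dist x (b ⟨i, z, hz⟩) < 1 := by
        have := dist_triangle_right x (b ⟨i, z, hz⟩) z
        rw [mem_ball] at hxz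
        linarith
      refine ⟨ball (b ⟨i, z, hz⟩) 1, isOpen_ball, e2, fun y hy => ?_, fun y hy hi => ?_⟩
      · have := dist_triangle_right y x (b ⟨i, z, hz⟩)
        rw [mem_ball] at hy ⊢
        linarith
      · by_contra hb'
        have e : dist y (b ⟨i, z, hz⟩) = 1 :=
          le_antisymm (closure_ball_subset_closedBall hy) (not_lt.1 hb')
        have e3 : δ ≤ |‖y - b ⟨i, z, hz⟩‖ - 1| := mem_iInter₂.1 hi.2 ⟨i, z, hz⟩ rfl
        rw [← dist_eq_norm, e, sub_self, abs_zero] at e3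
        exact absurd e3 (not_le.2 δ0')
  refine ⟨p, T, h1, fun i hi => closure_minimal ?_ isClosed_closure (h2 i hi).1.2⟩
  rw [hD]
  exact interior_subset

end Pool.Agent.Lib.MP_eb34a4_co.SC
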